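import Pool.Agent.H33.NFT.Chi
import Pool.Agent.H89.IMG.Lbi
import Pool.Agent.H65.ORD.Nzl
import Pool.Agent.H4.GEN.Conc

/-!
# The slopes of charts at perturbed times

`rem_evs`: Remez inequality in the time, on an event, for a family of polynomials at once.
`chi_fam`: a chart whose slopes are known at the exact time only (`Ch0`) is a chart with the slopes at
perturbed times (`ChI`) on half of the event, with a loss. `chi_cls`: for a class.
-/

set_option autoImplicit false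

namespace Pool.NFT33

open Finset Real MvPolynomial
open Pool.Agent.H49.Ent Pool.Agent.H32.Dense Pool.STK Pool.KA Pool.KSAT Pool.K2S Pool.PB Pool.S6C
open Pool.GEN Pool.REX Pool.REX83 Pool.MIC6
open Pool.GRW (big)
open Pool.FLF (Fam.sub sub_CH)
open Pool.PB.Trl (rt rt_mem t_rt)
open Pool.ORD65 (eval_lcw wpt_rt)

variable {m n J : ℕ}

/-- **Remez inequality in the time for a family of polynomials at once**, on an event. -/
theorem rem_evs (m K : ℕ) : ∃ C₁ : ℝ, 1 ≤ C₁ ∧ ∀ {J : ℕ} (F : Fam m J)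
    (A : F.Ω → Prop) (hA : 0 < Pe F.p A) (w : ℕ) {ι : Type}
    (q : LnT F → ι → Polynomial ℝ) (S₀ : ι → ℝ) (θ : ℝ),
    w ≤ J → (∀ s a, (q s a).natDegree ≤ K) → (∀ a, 0 < S₀ a) → 0 ≤ θ → (Fam.sub F A hA).Tm θ →
    C₁ * (θ + 1) ≤ ((J : ℝ) - w) * Real.log 2 →
    (∀ ω, A ω → ∀ a, |(q (slam F w ω) a).eval (rt F w ω)| ≤ S₀ a) →
    ∃ B : F.Ω → Prop, Sub B A ∧ Pe F.p A / 2 ≤ Pe F.p B ∧ ∀ ω, B ω → ∀ a,
      ∀ τ ∈ Set.Icc (0 : ℝ) 1,
        |(q (slam F w ω) a).eval τ| ≤ Real.exp (C₁ * (θ + 1)) * S₀ a := by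
  classical
  obtain ⟨C₁, hC₁, hrem⟩ := Pool.PZ.Zrt.rem_ev (m := m) K
  refine ⟨C₁, hC₁, ?_⟩
  intro J F A hA w ι q S₀ θ hw hqd hS₀ hθ hTm hN hAH
  obtain ⟨E, hE⟩ : ∃ E, E = Real.exp (C₁ * (θ + 1)) := ⟨_, rfl⟩
  have hch : ∀ s : LnT F, ∃ r : Polynomial ℝ, r.natDegree ≤ K ∧
      (∀ ω, A ω → slam F w ω = s → |r.eval (rt F w ω)| ≤ 1) ∧
      ((∃ a, ∃ τ ∈ Set.Icc (0 : ℝ) 1, E * S₀ a < |(q s a).eval τ|) →
        ∃ τ ∈ Set.Icc (0 : ℝ) 1, E < |r.eval τ|) := by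
    intro s
    by_cases h : ∃ a, ∃ τ ∈ Set.Icc (0 : ℝ) 1, E * S₀ a < |(q s a).eval τ|
    · obtain ⟨a, τ, hτ, h1⟩ := h
      have h0 : 0 < 1 / S₀ a := one_div_pos.2 (hS₀ a)
      refine ⟨Polynomial.C (1 / S₀ a) * q s a, (Polynomial.natDegree_C_mul_le _ _).trans
        (hqd s a), fun ω hω e => ?_, fun _ => ⟨τ, hτ, ?_⟩⟩
      · rw [Polynomial.eval_mul, Polynomial.eval_C, abs_mul, abs_of_pos h0, one_div,
          inv_mul_le_iff₀ (hS₀ a), mul_one]
        have h2 := hAH ω hω a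
        rwa [e] at h2
      · rw [Polynomial.eval_mul, Polynomial.eval_C, abs_mul, abs_of_pos h0, one_div,
          lt_inv_mul_iff₀ (hS₀ a)]
        linarith
    · refine ⟨0, by rw [Polynomial.natDegree_zero]; exact Nat.zero_le _, fun ω _ _ => ?_,
        fun h' => absurd h' h⟩
      rw [Polynomial.eval_zero, abs_zero]
      exact zero_le_one
  choose r h1 h2 h3 using hch
  obtain ⟨B, b1, b2, b3⟩ := hrem J F A hA w r 1 θ hw h1 one_pos hθ hTm hN
    (fun ω hω => h2 _ ω hω rfl)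
  refine ⟨B, b1, b2, fun ω hω a τ hτ => ?_⟩
  by_contra hcon
  push Not at hcon
  obtain ⟨τ', hτ', h4⟩ := h3 (slam F w ω) ⟨a, τ, hτ, by rw [hE]; exact hcon⟩
  have h5 := b3 ω hω τ' hτ'
  rw [← hE, mul_one] at h5
  linarith

/-- The perturbation of the positions. -/
def pu (u : Fin m → ℝ) : Option (Fin m) → ℝ
  | none => 0
  | some j => u j

/-- **From the slopes at the exact time to the slopes at perturbed times**, one family. -/
theorem chi_fam (m K : ℕ) : ∃ C : ℝ, 1 ≤ C ∧ ∀ {J : ℕ} (F : Fam m J) (v : Vz m)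
    (A : F.Ω → Prop) (hA : 0 < Pe F.p A) {c : ℕ → Fin m} {n₀ k : ℕ} {g : ℕ → ℕ}
    {t ρ₁ t' : ℕ} {d : CD F v} {θ : ℝ}, 0 ≤ θ → (Fam.sub F A hA).Tm θ →
    C * (θ + 1) ≤ ((J : ℝ) - v.B J) * Real.log 2 → ρ₁ ≤ J - v.B J →
    (∀ l ≤ n₀, g l + ρ₁ ≤ J) → Real.exp (C * (θ + 1)) * 2 ^ t ≤ 2 ^ t' →
    Ch0 F v c n₀ k g K t ρ₁ d A →
    ∃ B : F.Ω → Prop, Sub B A ∧ Pe F.p A / 2 ≤ Pe F.p B ∧ ChI F v c n₀ k g K t' ρ₁ d B := by
  classical
  obtain ⟨C₁, hC₁, hrem⟩ := rem_evs m (K + 1)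
  obtain ⟨Cg, hCg, hgrow⟩ := Pool.GEN.LemC.grow (K + 1)
  obtain ⟨D, hD⟩ : ∃ D : ℝ, D = Cg ^ 2 + 2 * Cg + 2 := ⟨_, rfl⟩
  have hD1 : 1 ≤ D := by
    rw [hD]
    nlinarith
  have hlD : 0 ≤ Real.log D := Real.log_nonneg hD1
  refine ⟨C₁ + Real.log D, by linarith, ?_⟩
  intro J F v A hA c n₀ k g t ρ₁ t' d θ hθ hTm hN hρJ hgJ ht' h
  obtain ⟨w, hw⟩ : ∃ w, w = v.B J := ⟨_, rfl⟩
  have hwJ : w ≤ J := by rw [hw]; exact (v.floor_le J).1
  rw [← hw] at hN hρJ
  -- a sample of each line and window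
  obtain ⟨ω₀, hω₀⟩ : ∃ ω, A ω := by
    by_contra hcon
    push Not at hcon
    have h1 : Pe F.p A = 0 := by
      unfold Pe
      refine Finset.sum_eq_zero fun ω _ => ?_
      simp [hcon ω]
    linarith
  obtain ⟨sel, hsel⟩ : ∃ sel : LnT F → F.Ω, ∀ ω, slam F w (sel (slam F w ω)) = slam F w ω := by
    refine ⟨fun s => if h : ∃ ω, slam F w ω = s then h.choose else ω₀, fun ω => ?_⟩
    have h1 : ∃ ω', slam F w ω' = slam F w ω := ⟨ω, rfl⟩
    show slam F w (if h : ∃ ω', slam F w ω' = slam F w ω then h.choose else ω₀) = _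
    rw [dif_pos h1]
    exact h1.choose_spec
  have hsl : ∀ ω, slam (v.win F) 0 (sel (slam F w ω)) = slam (v.win F) 0 ω := by
    intro ω
    refine win_of_slam v F (Nat.zero_le _) ?_
    rw [Nat.add_zero, ← hw]
    exact hsel ω
  have hZ : ∀ ω, (v.win F).Z (sel (slam F w ω)) = (v.win F).Z ω := fun ω =>
    (Prod.ext_iff.1 (Prod.ext_iff.1 (hsl ω)).2).1
  have hL : ∀ ω, (v.win F).l (sel (slam F w ω)) = (v.win F).l ω := fun ω =>
    (Prod.ext_iff.1 (hsl ω)).1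
  -- the polynomials
  obtain ⟨Qs, hQs⟩ : ∃ Qs : LnT F → ℕ → MvPolynomial (Option (Fin m)) ℝ, Qs = fun s l =>
    d.Q ((v.win F).Z (sel s)) l := ⟨_, rfl⟩
  obtain ⟨as, has⟩ : ∃ as : LnT F → ℕ → ℝ, as = fun s l =>
    d.a ((v.win F).l (sel s), (v.win F).Z (sel s)) l := ⟨_, rfl⟩
  obtain ⟨bs, hbs⟩ : ∃ bs : LnT F → ℕ → ℝ, bs = fun s l =>
    d.b ((v.win F).l (sel s), (v.win F).Z (sel s)) l := ⟨_, rfl⟩
  have eQ : ∀ ω l, Qs (slam F w ω) l = d.Q ((v.win F).Z ω) l := fun ω l => by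
    rw [hQs]
    show d.Q ((v.win F).Z (sel (slam F w ω))) l = _
    rw [hZ]
  have ea : ∀ ω l, as (slam F w ω) l = d.a ((v.win F).l ω, (v.win F).Z ω) l := fun ω l => by
    rw [has]
    show d.a ((v.win F).l (sel (slam F w ω)), (v.win F).Z (sel (slam F w ω))) l = _
    rw [hZ, hL]
  have eb : ∀ ω l, bs (slam F w ω) l = d.b ((v.win F).l ω, (v.win F).Z ω) l := fun ω l => by
    rw [hbs]
    show d.b ((v.win F).l (sel (slam F w ω)), (v.win F).Z (sel (slam F w ω))) l = _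
    rw [hZ, hL]
  obtain ⟨p₀, hp₀⟩ : ∃ p₀ : LnT F → ℕ → Polynomial ℝ, p₀ = fun s l =>
    aeval (fun o => lc w s o) (Qs s l) := ⟨_, rfl⟩
  obtain ⟨p₁, hp₁⟩ : ∃ p₁ : LnT F → ℕ → (Fin m → ℝ) → Polynomial ℝ, p₁ = fun s l u =>
    aeval (fun o => lc w s o + Polynomial.C (pu u o)) (Qs s l) - p₀ s l := ⟨_, rfl⟩
  obtain ⟨p₂, hp₂⟩ : ∃ p₂ : LnT F → ℕ → Polynomial ℝ, p₂ = fun s l =>
    Polynomial.C (2 ^ g l) * (lc w s (some (c l)) - p₀ s l) -
      (Polynomial.C (as s l) + Polynomial.C (bs s l) * Polynomial.X) := ⟨_, rfl⟩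
  obtain ⟨q, hq⟩ : ∃ q : LnT F → (ℕ × (Fin m → ℝ)) ⊕ ℕ → Polynomial ℝ, q = fun s =>
      Sum.elim (fun a => if a.1 ≤ n₀ ∧ ∀ i, |a.2 i| ≤ 1 / 2 ^ J then p₁ s a.1 a.2 else 0)
        (fun l => if l ≤ n₀ then p₂ s l else 0) := ⟨_, rfl⟩
  obtain ⟨S₀, hS₀⟩ : ∃ S₀ : (ℕ × (Fin m → ℝ)) ⊕ ℕ → ℝ, S₀ =
      Sum.elim (fun a => 2 ^ t / 2 ^ (g a.1 + ρ₁)) (fun _ => 2 ^ t / 2 ^ ρ₁) := ⟨_, rfl⟩
  have dlc : ∀ (s : LnT F) (o : Option (Fin m)), (lc w s o).natDegree ≤ 1 := fun s o =>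
    natDegree_lc w s o
  have d0 : ∀ s l, (p₀ s l).natDegree ≤ K := by
    intro s l
    rw [hp₀]
    refine Pool.KBX.natDegree_aeval_le _ _ (fun o => dlc s o) ?_
    rw [hQs]
    exact h.deg _ _
  have d1 : ∀ s l u, (p₁ s l u).natDegree ≤ K + 1 := by
    intro s l u
    rw [hp₁]
    refine (Polynomial.natDegree_sub_le _ _).trans (max_le ?_ ((d0 s l).trans (by omega)))
    refine (Pool.KBX.natDegree_aeval_le _ _ (fun o => ?_) ?_).trans (Nat.le_succ K)
    · refine (Polynomial.natDegree_add_le _ _).trans (max_le (dlc s o) ?_)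
      rw [Polynomial.natDegree_C]
      exact Nat.zero_le _
    · rw [hQs]
      exact h.deg _ _
  have d2 : ∀ s l, (p₂ s l).natDegree ≤ K + 1 := by
    intro s l
    rw [hp₂]
    refine (Polynomial.natDegree_sub_le _ _).trans (max_le ?_ ?_)
    · refine (Polynomial.natDegree_C_mul_le _ _).trans ?_
      exact (Polynomial.natDegree_sub_le _ _).trans (max_le ((dlc s _).trans (by omega))
        ((d0 s l).trans (by omega)))
    · refine (Polynomial.natDegree_add_le _ _).trans (max_le ?_ ?_)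
      · rw [Polynomial.natDegree_C]
        exact Nat.zero_le _
      · refine (Polynomial.natDegree_C_mul_le _ _).trans ?_
        rw [Polynomial.natDegree_X]
        omega
  have e0 : ∀ ω l σ, (p₀ (slam F w ω) l).eval σ =
      eval (wpt F w ω σ) (d.Q ((v.win F).Z ω) l) := by
    intro ω l σ
    rw [hp₀]
    show (aeval (fun o => lc w (slam F w ω) o) (Qs (slam F w ω) l)).eval σ = _
    rw [Pool.KBX.eval_aeval_poly, eQ]
    have : (fun o : Option (Fin m) => (lc w (slam F w ω) o).eval σ) = wpt F w ω σ := by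
      funext o
      exact eval_lcw F w ω o σ
    rw [this]
  have e1 : ∀ ω l u σ, (p₁ (slam F w ω) l u).eval σ =
      eval (fun o => wpt F w ω σ o + pu u o) (d.Q ((v.win F).Z ω) l) -
        eval (wpt F w ω σ) (d.Q ((v.win F).Z ω) l) := by
    intro ω l u σ
    rw [hp₁]
    show (aeval (fun o => lc w (slam F w ω) o + Polynomial.C (pu u o)) (Qs (slam F w ω) l) -
      p₀ (slam F w ω) l).eval σ = _
    rw [Polynomial.eval_sub, e0, Pool.KBX.eval_aeval_poly, eQ]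
    have : (fun o : Option (Fin m) => (lc w (slam F w ω) o + Polynomial.C (pu u o)).eval σ) =
        fun o => wpt F w ω σ o + pu u o := by
      funext o
      rw [Polynomial.eval_add, Polynomial.eval_C, eval_lcw F w ω o σ]
    rw [this]
  have e2 : ∀ ω l σ, (p₂ (slam F w ω) l).eval σ =
      2 ^ g l * (wp F w ω σ (c l) - eval (wpt F w ω σ) (d.Q ((v.win F).Z ω) l)) -
        (d.a ((v.win F).l ω, (v.win F).Z ω) l + d.b ((v.win F).l ω, (v.win F).Z ω) l * σ) := by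
    intro ω l σ
    rw [hp₂]
    show (Polynomial.C (2 ^ g l) * (lc w (slam F w ω) (some (c l)) - p₀ (slam F w ω) l) -
      (Polynomial.C (as (slam F w ω) l) +
        Polynomial.C (bs (slam F w ω) l) * Polynomial.X)).eval σ = _
    rw [Polynomial.eval_sub, Polynomial.eval_mul, Polynomial.eval_C, Polynomial.eval_sub, e0,
      Polynomial.eval_add, Polynomial.eval_C, Polynomial.eval_mul, Polynomial.eval_C,
      Polynomial.eval_X, ea, eb, eval_lcw]
    rfl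
  have hrt : ∀ ω, wpt F w ω (rt F w ω) = bt F ω := by
    intro ω
    funext o
    exact wpt_rt F hwJ ω o
  have hwt : ∀ ω, (v.win F).t ω = rt F w ω := by
    intro ω
    rw [hw]
    show ((F.T ω % 2 ^ (J - v.B J) : ℕ) : ℝ) / 2 ^ (J - v.B J) = _
    unfold rt
    push_cast
    rfl
  obtain ⟨E, hE⟩ : ∃ E : ℝ, E = Real.exp (C₁ * (θ + 1)) := ⟨_, rfl⟩
  have hE1 : 1 ≤ E := by
    rw [hE]
    exact Real.one_le_exp (by positivity)
  have hED : D * E ≤ Real.exp ((C₁ + Real.log D) * (θ + 1)) := by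
    have h2 : D ≤ Real.exp (Real.log D * (θ + 1)) := by
      calc D = Real.exp (Real.log D) := (Real.exp_log (by linarith)).symm
        _ ≤ _ := Real.exp_le_exp.2 (by nlinarith)
    rw [add_mul, Real.exp_add, hE, mul_comm]
    exact mul_le_mul_of_nonneg_left h2 (Real.exp_pos _).le
  obtain ⟨B, hBA, hPB, hB⟩ := hrem F A hA w q S₀ θ hwJ (by
      intro s a
      rw [hq]
      rcases a with ⟨l, u⟩ | l
      · show (if l ≤ n₀ ∧ ∀ i, |u i| ≤ 1 / 2 ^ J then p₁ s l u else 0).natDegree ≤ K + 1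
        split_ifs
        · exact d1 s l u
        · rw [Polynomial.natDegree_zero]
          exact Nat.zero_le _
      · show (if l ≤ n₀ then p₂ s l else 0).natDegree ≤ K + 1
        split_ifs
        · exact d2 s l
        · rw [Polynomial.natDegree_zero]
          exact Nat.zero_le _) (by
      intro a
      rw [hS₀]
      rcases a with ⟨l, u⟩ | l
      · show (0 : ℝ) < 2 ^ t / 2 ^ (g l + ρ₁)
        positivity
      · show (0 : ℝ) < 2 ^ t / 2 ^ ρ₁
        positivity) hθ hTm (by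
      refine le_trans ?_ hN
      have : 0 ≤ Real.log D * (θ + 1) := mul_nonneg hlD (by linarith)
      linarith) (by
      intro ω hω a
      rw [hq, hS₀]
      rcases a with ⟨l, u⟩ | l
      · show |(if l ≤ n₀ ∧ ∀ i, |u i| ≤ 1 / 2 ^ J then p₁ (slam F w ω) l u else 0).eval
          (rt F w ω)| ≤ 2 ^ t / 2 ^ (g l + ρ₁)
        split_ifs with hc
        · rw [e1, hrt]
          refine h.slp ω hω l hc.1 _ ?_ fun o => ?_
          · show bt F ω none + 0 = bt F ω none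
            rw [add_zero]
          · rw [add_sub_cancel_left]
            cases o with
            | none =>
              show |(0 : ℝ)| ≤ _
              rw [abs_zero]
              positivity
            | some i => exact hc.2 i
        · rw [Polynomial.eval_zero, abs_zero]
          positivity
      · show |(if l ≤ n₀ then p₂ (slam F w ω) l else 0).eval (rt F w ω)| ≤ 2 ^ t / 2 ^ ρ₁
        split_ifs with hc
        · have h1 := h.lin ω hω l hc
          rw [e2, hrt]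
          have e3 : ∀ τ, τ = (v.win F).t ω →
              |2 ^ g l * (F.x ω (c l) - eval (bt F ω) (d.Q ((v.win F).Z ω) l)) -
                (d.a ((v.win F).l ω, (v.win F).Z ω) l +
                  τ * d.b ((v.win F).l ω, (v.win F).Z ω) l)| ≤ 2 ^ t / 2 ^ ρ₁ := by
            intro τ hτ
            rw [hτ]
            exact h1
          have h2 : wp F w ω (rt F w ω) (c l) = F.x ω (c l) := wpt_rt F hwJ ω (some (c l))
          rw [h2, mul_comm (d.b ((v.win F).l ω, (v.win F).Z ω) l)]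
          exact e3 _ (hwt ω).symm
        · rw [Polynomial.eval_zero, abs_zero]
          positivity)
  rw [← hE] at hB
  have pt : (0 : ℝ) < 2 ^ t := by positivity
  have htt : (2 : ℝ) ^ t ≤ 2 ^ t' := by
    refine le_trans ?_ ht'
    have h1 : 1 ≤ Real.exp ((C₁ + Real.log D) * (θ + 1)) :=
      Real.one_le_exp (mul_nonneg (by linarith) (by linarith))
    nlinarith
  refine ⟨B, hBA, hPB, h.deg, h.dep, h.one, h.le1, h.ka0,
    fun ω hω l hl => (h.nat ω (hBA ω hω) l hl).trans htt,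
    fun ω hω l hl => (h.bda ω (hBA ω hω) l hl).trans htt,
    fun ω hω l hl => (h.bdb ω (hBA ω hω) l hl).trans htt,
    fun ω hω l hl => (h.lin ω (hBA ω hω) l hl).trans
      (div_le_div_of_nonneg_right htt (by positivity)), ?_⟩
  intro ω hω l hl x hx
  obtain ⟨Q, hQ⟩ : ∃ Q, Q = d.Q ((v.win F).Z ω) l := ⟨_, rfl⟩
  have hQd : Q.totalDegree ≤ K := by rw [hQ]; exact h.deg _ _
  obtain ⟨Z1, hZ1⟩ : ∃ Z1 : ℝ, Z1 = 2 ^ t / 2 ^ (g l + ρ₁) := ⟨_, rfl⟩
  have hZ10 : 0 < Z1 := by rw [hZ1]; positivity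
  have pg : (0 : ℝ) < 2 ^ g l := by positivity
  have pJ : (0 : ℝ) < 2 ^ J := by positivity
  have pw : (0 : ℝ) < 2 ^ w := by positivity
  -- the bounds on the long window
  have hS : ∀ u : Fin m → ℝ, (∀ i, |u i| ≤ 1 / 2 ^ J) → ∀ σ : ℝ, -1 ≤ σ → σ ≤ 2 →
      |eval (fun o => wpt F w ω σ o + pu u o) Q - eval (wpt F w ω σ) Q| ≤ Cg * (E * Z1) := by
    intro u hu σ s1 s2
    have h1 := hgrow (p₁ (slam F w ω) l u) (E * Z1) (d1 _ _ _) (fun τ t1 t2 => by
      have h2 := hB ω hω (Sum.inl (l, u)) τ ⟨t1, t2⟩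
      rw [hq, hS₀] at h2
      have h3 : |(if l ≤ n₀ ∧ ∀ i, |u i| ≤ 1 / 2 ^ J then p₁ (slam F w ω) l u else 0).eval τ| ≤
        E * (2 ^ t / 2 ^ (g l + ρ₁)) := h2
      rw [if_pos ⟨hl, hu⟩] at h3
      rw [hZ1]
      exact h3) σ s1 s2
    rw [e1, ← hQ] at h1
    exact h1
  have hH : ∀ σ : ℝ, -1 ≤ σ → σ ≤ 2 →
      |2 ^ g l * (wp F w ω σ (c l) - eval (wpt F w ω σ) Q) -
        (d.a ((v.win F).l ω, (v.win F).Z ω) l + d.b ((v.win F).l ω, (v.win F).Z ω) l * σ)| ≤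
        Cg * (E * (2 ^ t / 2 ^ ρ₁)) := by
    intro σ s1 s2
    have h1 := hgrow (p₂ (slam F w ω) l) (E * (2 ^ t / 2 ^ ρ₁)) (d2 _ _) (fun τ t1 t2 => by
      have h2 := hB ω hω (Sum.inr l) τ ⟨t1, t2⟩
      rw [hq, hS₀] at h2
      have h3 : |(if l ≤ n₀ then p₂ (slam F w ω) l else 0).eval τ| ≤
        E * (2 ^ t / 2 ^ ρ₁) := h2
      rw [if_pos hl] at h3
      exact h3) σ s1 s2
    rw [e2, ← hQ] at h1
    exact h1
  -- the relative time
  obtain ⟨r, hr⟩ : ∃ r, r = rt F w ω := ⟨_, rfl⟩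
  have hr01 := rt_mem F w ω
  rw [← hr] at hr01
  obtain ⟨σ, hσ⟩ : ∃ σ, σ = r + 2 ^ w * (x none - F.t ω) := ⟨_, rfl⟩
  have hx0 : |x none - F.t ω| ≤ 1 / 2 ^ J := hx none
  have hσr : |σ - r| ≤ 2 ^ w / 2 ^ J := by
    rw [hσ, add_sub_cancel_left, abs_mul, abs_of_pos pw]
    have := mul_le_mul_of_nonneg_left hx0 pw.le
    rwa [mul_one_div] at this
  have hwJ1 : (2 : ℝ) ^ w / 2 ^ J ≤ 1 / 2 ^ ρ₁ := by
    rw [div_le_div_iff₀ pJ (by positivity), one_mul, ← pow_add]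
    exact pow_le_pow_right₀ (by norm_num) (by omega)
  have hρ1 : (1 : ℝ) / 2 ^ ρ₁ ≤ 1 := by
    rw [div_le_one (by positivity)]
    exact one_le_pow₀ (by norm_num)
  have hσ1 := abs_le.1 (hσr.trans (hwJ1.trans hρ1))
  have s1 : -1 ≤ σ := by linarith [hσ1.1, hr01.1]
  have s2 : σ ≤ 2 := by linarith [hσ1.2, hr01.2]
  have hxn : wpt F w ω σ none = x none := by
    show ((slam F w ω).2.2 : ℝ) / 2 ^ w + 1 / 2 ^ w * σ = x none
    have h1 := t_rt F hwJ ω
    rw [← hr] at h1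
    rw [hσ]
    have e3 : ((slam F w ω).2.2 : ℝ) / 2 ^ w + 1 / 2 ^ w * (r + 2 ^ w * (x none - F.t ω)) =
        (((slam F w ω).2.2 : ℝ) + r) / 2 ^ w + (x none - F.t ω) := by
      field_simp
      ring
    rw [e3, ← h1]
    ring
  have hwx : ∀ i, |wp F w ω σ i - F.x ω i| ≤ 1 / 2 ^ J := by
    intro i
    rw [wp_eq F hwJ ω σ i, add_sub_cancel_left, abs_mul, abs_mul, ← hr,
      abs_of_pos (by positivity : (0 : ℝ) < 1 / 2 ^ w)]
    have h1 := F.dir ω i
    calc 1 / 2 ^ w * |σ - r| * |F.d ω i| ≤ 1 / 2 ^ w * (2 ^ w / 2 ^ J) * 1 := by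
          refine mul_le_mul (mul_le_mul_of_nonneg_left hσr (by positivity)) h1 (abs_nonneg _)
            (by positivity)
      _ = 1 / 2 ^ J := by field_simp
  obtain ⟨u, hu⟩ : ∃ u : Fin m → ℝ, u = fun i => (x (some i) - wp F w ω σ i) / 2 := ⟨_, rfl⟩
  have hu1 : ∀ i, |u i| ≤ 1 / 2 ^ J := by
    intro i
    rw [hu]
    show |(x (some i) - wp F w ω σ i) / 2| ≤ _
    have h1 := hwx i
    have h2 : |x (some i) - F.x ω i| ≤ 1 / 2 ^ J := hx (some i)
    rw [abs_div, abs_of_pos (by norm_num : (0 : ℝ) < 2), div_le_iff₀ (by norm_num)]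
    rw [abs_le] at h1 h2 ⊢
    constructor <;> linarith [h1.1, h1.2, h2.1, h2.2]
  -- the dilation
  have hdil : |eval x Q - eval (wpt F w ω σ) Q| ≤ Cg * (Cg * (E * Z1)) := by
    obtain ⟨f, hf⟩ : ∃ f : Option (Fin m) → Polynomial ℝ, f = fun o =>
      Polynomial.C (wpt F w ω σ o) + Polynomial.C (pu u o) * Polynomial.X := ⟨_, rfl⟩
    have ef : ∀ (o : Option (Fin m)) (lam : ℝ), (f o).eval lam =
        wpt F w ω σ o + pu u o * lam := by
      intro o lam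
      rw [hf]
      simp only [Polynomial.eval_add, Polynomial.eval_mul, Polynomial.eval_C, Polynomial.eval_X]
    obtain ⟨pl, hpl⟩ : ∃ pl : Polynomial ℝ, pl = aeval f Q -
      Polynomial.C (eval (wpt F w ω σ) Q) := ⟨_, rfl⟩
    have epl : ∀ lam : ℝ, pl.eval lam = eval (fun o => wpt F w ω σ o + pu u o * lam) Q -
        eval (wpt F w ω σ) Q := by
      intro lam
      rw [hpl, Polynomial.eval_sub, Polynomial.eval_C, Pool.KBX.eval_aeval_poly]
      have : (fun o : Option (Fin m) => (f o).eval lam) =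
          fun o => wpt F w ω σ o + pu u o * lam := by
        funext o
        exact ef o lam
      rw [this]
    have h1 := hgrow pl (Cg * (E * Z1)) (by
      rw [hpl]
      refine (Polynomial.natDegree_sub_le _ _).trans (max_le ?_ ?_)
      · refine (Pool.KBX.natDegree_aeval_le _ _ (fun o => ?_) hQd).trans (Nat.le_succ K)
        rw [hf]
        refine (Polynomial.natDegree_add_le _ _).trans (max_le ?_ ?_)
        · rw [Polynomial.natDegree_C]
          exact Nat.zero_le _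
        · refine (Polynomial.natDegree_C_mul_le _ _).trans ?_
          rw [Polynomial.natDegree_X]
      · rw [Polynomial.natDegree_C]
        exact Nat.zero_le _) (fun lam l1 l2 => by
      rw [epl]
      have h2 := hS (fun i => u i * lam) (fun i => by
        rw [abs_mul, abs_of_nonneg l1]
        calc |u i| * lam ≤ 1 / 2 ^ J * 1 := mul_le_mul (hu1 i) l2 l1 (by positivity)
          _ = 1 / 2 ^ J := mul_one _) σ s1 s2
      have e3 : (fun o => wpt F w ω σ o + pu (fun i => u i * lam) o) =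
          fun o => wpt F w ω σ o + pu u o * lam := by
        funext o
        cases o with
        | none =>
          show wpt F w ω σ none + 0 = wpt F w ω σ none + 0 * lam
          rw [zero_mul]
        | some i => rfl
      rw [e3] at h2
      exact h2) 2 (by norm_num) le_rfl
    rw [epl] at h1
    have e4 : (fun o => wpt F w ω σ o + pu u o * 2) = x := by
      funext o
      cases o with
      | none =>
        show wpt F w ω σ none + 0 * 2 = x none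
        rw [hxn]
        ring
      | some i =>
        show wp F w ω σ i + u i * 2 = x (some i)
        rw [hu]
        ring
    rw [e4] at h1
    exact h1
  -- the time
  have htim : |eval (wpt F w ω σ) Q - eval (bt F ω) Q| ≤ (2 * Cg * E + 2) * Z1 := by
    have h1 := hH σ s1 s2
    have h2 := hH r (by linarith [hr01.1]) (by linarith [hr01.2])
    have h3 : wpt F w ω r = bt F ω := by rw [hr]; exact hrt ω
    have h4 : wp F w ω r (c l) = F.x ω (c l) := by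
      rw [hr]
      exact wpt_rt F hwJ ω (some (c l))
    rw [h3, h4] at h2
    have h5 := hwx (c l)
    have h6 := h.bdb ω (hBA ω hω) l hl
    obtain ⟨a, ha⟩ : ∃ a, a = d.a ((v.win F).l ω, (v.win F).Z ω) l := ⟨_, rfl⟩
    obtain ⟨b, hb⟩ : ∃ b, b = d.b ((v.win F).l ω, (v.win F).Z ω) l := ⟨_, rfl⟩
    obtain ⟨y, hy⟩ : ∃ y, y = eval (wpt F w ω σ) Q := ⟨_, rfl⟩
    obtain ⟨y', hy'⟩ : ∃ y', y' = eval (bt F ω) Q := ⟨_, rfl⟩
    rw [← ha, ← hb, ← hy] at h1
    rw [← ha, ← hb, ← hy'] at h2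
    rw [← hb] at h6
    rw [← hy, ← hy']
    have h7 : |b * (σ - r)| ≤ 2 ^ t / 2 ^ ρ₁ := by
      rw [abs_mul]
      calc |b| * |σ - r| ≤ 2 ^ t * (1 / 2 ^ ρ₁) :=
            mul_le_mul h6 (hσr.trans hwJ1) (abs_nonneg _) pt.le
        _ = _ := by rw [mul_one_div]
    have h8 : 2 ^ g l * |wp F w ω σ (c l) - F.x ω (c l)| ≤ 2 ^ t / 2 ^ ρ₁ := by
      calc 2 ^ g l * |wp F w ω σ (c l) - F.x ω (c l)| ≤ 2 ^ g l * (1 / 2 ^ J) :=
            mul_le_mul_of_nonneg_left h5 pg.le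
        _ ≤ 1 / 2 ^ ρ₁ := by
            rw [mul_one_div, div_le_div_iff₀ pJ (by positivity), one_mul, ← pow_add]
            exact pow_le_pow_right₀ (by norm_num) (hgJ l hl)
        _ ≤ 2 ^ t / 2 ^ ρ₁ := div_le_div_of_nonneg_right (one_le_pow₀ (by norm_num))
            (by positivity)
    have h9 : 2 ^ g l * |y - y'| ≤ 2 * (Cg * (E * (2 ^ t / 2 ^ ρ₁))) + 2 * (2 ^ t / 2 ^ ρ₁) := by
      have e5 : 2 ^ g l * (y - y') = 2 ^ g l * (wp F w ω σ (c l) - F.x ω (c l)) -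
          ((2 ^ g l * (wp F w ω σ (c l) - y) - (a + b * σ)) -
            (2 ^ g l * (F.x ω (c l) - y') - (a + b * r))) - b * (σ - r) := by ring
      have e6 : 2 ^ g l * |y - y'| = |2 ^ g l * (y - y')| := by
        rw [abs_mul, abs_of_pos pg]
      have h8' : |2 ^ g l * (wp F w ω σ (c l) - F.x ω (c l))| ≤ 2 ^ t / 2 ^ ρ₁ := by
        rw [abs_mul, abs_of_pos pg]
        exact h8
      rw [e6, e5]
      rw [abs_le] at h1 h2 h7 h8' ⊢
      constructor <;> linarith [h1.1, h1.2, h2.1, h2.2, h7.1, h7.2, h8'.1, h8'.2]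
    have e7 : (2 : ℝ) ^ t / 2 ^ ρ₁ = 2 ^ g l * Z1 := by
      rw [hZ1, pow_add]
      field_simp
    rw [e7] at h9
    have h10 : 2 ^ g l * |y - y'| ≤ 2 ^ g l * ((2 * Cg * E + 2) * Z1) := by
      refine h9.trans (le_of_eq ?_)
      ring
    exact le_of_mul_le_mul_left h10 pg
  have hfin : |eval x Q - eval (bt F ω) Q| ≤ D * E * Z1 := by
    have h1 : |eval x Q - eval (bt F ω) Q| ≤ Cg * (Cg * (E * Z1)) + (2 * Cg * E + 2) * Z1 := by
      rw [abs_le] at hdil htim ⊢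
      constructor <;> linarith [hdil.1, hdil.2, htim.1, htim.2]
    refine h1.trans ?_
    have h2 : 2 * Z1 ≤ 2 * E * Z1 := by nlinarith
    have e8 : D * E * Z1 = Cg * (Cg * (E * Z1)) + 2 * Cg * E * Z1 + 2 * E * Z1 := by
      rw [hD]
      ring
    rw [e8]
    linarith
  rw [hQ] at hfin
  refine hfin.trans ?_
  have h1 : D * E * 2 ^ t ≤ 2 ^ t' :=
    (mul_le_mul_of_nonneg_right hED pt.le).trans ht'
  rw [hZ1, ← mul_div_assoc]
  exact div_le_div_of_nonneg_right h1 (by positivity)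

/-- **From the slopes at the exact time to the slopes at perturbed times**, for a class. -/
theorem chi_cls {S : PCl m} {C₀ : ℝ} (hC₀ : 0 ≤ C₀) (htm : TmC S C₀) (v : Vz m)
    {c : ℕ → Fin m} {n₀ k K : ℕ} {g : ℕ → ℕ → ℕ} {t ρ₁ : ℕ → ℕ}
    {d : ∀ (J : ℕ) (F : Fam m J), CD F v} {J₁ : ℕ} (hρ : ∀ J ≥ J₁, ρ₁ J ≤ J - v.B J)
    (hg : ∀ J ≥ J₁, ∀ l ≤ n₀, g J l + ρ₁ J ≤ J)
    (h : Bas S (fun J F A => Ch0 F v c n₀ k (g J) K (t J) (ρ₁ J) (d J F) A)) {ε : ℝ}
    (hε : 0 < ε) :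
    Bas S (fun J F A => ∃ B : F.Ω → Prop, Sub B A ∧ Pe F.p A ≤ 2 * Pe F.p B ∧
      ChI F v c n₀ k (g J) K (t J + ⌊ε * J⌋₊) (ρ₁ J) (d J F) B) := by
  obtain ⟨C, hC, hfam⟩ := chi_fam m K
  have hl2 : 0 < Real.log 2 := Real.log_pos one_lt_two
  have hb1 := v.b1
  obtain ⟨e, he⟩ : ∃ e : ℝ, e = min ε (1 - v.b) := ⟨_, rfl⟩
  have he0 : 0 < e := by rw [he]; exact lt_min hε (by linarith)
  obtain ⟨τ₀, hτ₀⟩ : ∃ τ₀ : ℝ, τ₀ = e * Real.log 2 / (2 * (C * (C₀ + 1))) := ⟨_, rfl⟩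
  have hCC : 0 < C * (C₀ + 1) := by positivity
  have hτ₀0 : 0 < τ₀ := by rw [hτ₀]; positivity
  have hτC : C * (C₀ * τ₀) ≤ e * Real.log 2 / 2 := by
    have h1 : C * (C₀ * τ₀) ≤ C * ((C₀ + 1) * τ₀) :=
      mul_le_mul_of_nonneg_left (mul_le_mul_of_nonneg_right (by linarith) hτ₀0.le) (by linarith)
    have h2 : C * ((C₀ + 1) * τ₀) = e * Real.log 2 / 2 := by
      rw [hτ₀]
      field_simp
    linarith
  obtain ⟨τ₁, hτ₁, J₂, hall⟩ := h
  obtain ⟨J₃, hJ₃⟩ := big (a := e * Real.log 2 / 2) (by positivity) (C + Real.log 2)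
  obtain ⟨τ, hτ⟩ : ∃ τ, τ = min τ₀ τ₁ := ⟨_, rfl⟩
  have hτ0 : 0 < τ := by rw [hτ]; exact lt_min hτ₀0 hτ₁
  have ht0 : τ ≤ τ₀ := by rw [hτ]; exact min_le_left _ _
  have ht1 : τ ≤ τ₁ := by rw [hτ]; exact min_le_right _ _
  refine ⟨τ, hτ0, max J₁ (max J₂ J₃), fun J hJ F A hA => ?_⟩
  have j1 : J₁ ≤ J := (le_max_left _ _).trans hJ
  have j2 : J₂ ≤ J := ((le_max_left _ _).trans (le_max_right _ _)).trans hJ
  have j3 := hJ₃ J (((le_max_right _ _).trans (le_max_right _ _)).trans hJ)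
  have hJ0 : (0 : ℝ) ≤ J := Nat.cast_nonneg J
  obtain ⟨hA0, htmA⟩ := htm τ J F A hτ0 hA
  have h0 := hall J j2 F A (S.mono ht1 hA)
  obtain ⟨θ, hθ⟩ : ∃ θ : ℝ, θ = C₀ * τ * J := ⟨_, rfl⟩
  have hθ0 : 0 ≤ θ := by rw [hθ]; positivity
  have hTm : (Fam.sub F A hA0).Tm θ := by
    have h4 := htmA (isLaw_cond F.isLaw hA0)
    rw [← hθ] at h4
    unfold Fam.Tm at h4 ⊢
    refine h4.trans (le_of_eq ?_)
    exact (sub_CH F.T (fun ω => (F.l ω, F.Z ω))).symm
  have hCθ : C * (θ + 1) + Real.log 2 ≤ e * Real.log 2 * J := by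
    have h1 : C * θ ≤ C * (C₀ * τ₀) * J := by
      rw [hθ]
      have h2 : C₀ * τ ≤ C₀ * τ₀ := mul_le_mul_of_nonneg_left ht0 hC₀
      have h3 := mul_le_mul_of_nonneg_right h2 hJ0
      have h4 := mul_le_mul_of_nonneg_left h3 (by linarith : (0 : ℝ) ≤ C)
      linarith
    have h5 := mul_le_mul_of_nonneg_right hτC hJ0
    linarith
  have hBJ : (1 - v.b) * J ≤ (J : ℝ) - v.B J := by
    have h1 : (v.B J : ℝ) ≤ v.b * J := Nat.floor_le (mul_nonneg v.b0 hJ0)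
    linarith
  have he1 : e ≤ ε := by rw [he]; exact min_le_left _ _
  have he2 : e ≤ 1 - v.b := by rw [he]; exact min_le_right _ _
  obtain ⟨B, b1, b2, b3⟩ := hfam F v A hA0 (t' := t J + ⌊ε * J⌋₊) hθ0 hTm (by
    have h1 : e * Real.log 2 * J ≤ ((J : ℝ) - v.B J) * Real.log 2 := by
      have h2 : e * J ≤ (J : ℝ) - v.B J := (mul_le_mul_of_nonneg_right he2 hJ0).trans hBJ
      have h3 := mul_le_mul_of_nonneg_right h2 hl2.le
      linarith
    linarith) (hρ J j1) (hg J j1) (by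
    rw [pow_add, mul_comm]
    refine mul_le_mul_of_nonneg_left ?_ (by positivity)
    have h1 : C * (θ + 1) ≤ (⌊ε * J⌋₊ : ℝ) * Real.log 2 := by
      have h2 : ε * J < ⌊ε * (J : ℝ)⌋₊ + 1 := Nat.lt_floor_add_one _
      have h3 : e * J ≤ ε * J := mul_le_mul_of_nonneg_right he1 hJ0
      have h4 : (e * J - 1) * Real.log 2 ≤ (⌊ε * (J : ℝ)⌋₊ : ℝ) * Real.log 2 :=
        mul_le_mul_of_nonneg_right (by linarith) hl2.le
      linarith
    calc Real.exp (C * (θ + 1)) ≤ Real.exp ((⌊ε * J⌋₊ : ℝ) * Real.log 2) :=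
          Real.exp_le_exp.2 h1
      _ = 2 ^ ⌊ε * (J : ℝ)⌋₊ := by
        rw [mul_comm, ← Real.rpow_natCast, Real.rpow_def_of_pos (by norm_num)]) h0
  exact ⟨B, b1, by linarith, b3⟩

end Pool.NFT33
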